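import Mathlib
import Pool.Agent.TH10.RP.Defect
import Pool.Agent.TH10.RP.JG

set_option autoImplicit false

/-!
# The rank is more than half of the number of cotangents, and enough roots of unity

Task TJ-5 of helper10 (second prover helper460).
-/

namespace Pool.Agent.TH460.TJ

open Finset Pool.Agent.TH10.RP

private lemma real_est (C : ℝ) (hC : 1 ≤ C) (p d w : ℕ) (hp : 1 ≤ p) (hd : 1 ≤ d)
    (hdp : d ^ 2 ≤ 16 * p) (hw : (w : ℝ) ≤ C * (d : ℝ) ^ ((1 : ℝ) / 8)) (h : p ≤ 4 * w ^ 2 * d) :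
    (p : ℝ) ≤ 2 ^ 36 * C ^ 16 := by
  have hd0 : (0 : ℝ) < d := by exact_mod_cast hd
  have hp0 : (1 : ℝ) ≤ p := by exact_mod_cast hp
  have h1 : (w : ℝ) ^ 8 ≤ C ^ 8 * d := by
    have h2 := pow_le_pow_left₀ (Nat.cast_nonneg w) hw 8
    rw [mul_pow, ← Real.rpow_natCast ((d : ℝ) ^ ((1 : ℝ) / 8)) 8, ← Real.rpow_mul hd0.le] at h2
    norm_num at h2
    exact h2
  have h3 : (p : ℝ) ≤ 4 * (w : ℝ) ^ 2 * d := by exact_mod_cast h
  have h4 : (p : ℝ) ^ 4 ≤ 256 * C ^ 8 * (d : ℝ) ^ 5 := by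
    calc (p : ℝ) ^ 4 ≤ (4 * (w : ℝ) ^ 2 * d) ^ 4 := pow_le_pow_left₀ (by positivity) h3 4
      _ = 256 * (w : ℝ) ^ 8 * (d : ℝ) ^ 4 := by ring
      _ ≤ 256 * (C ^ 8 * d) * (d : ℝ) ^ 4 := by gcongr
      _ = 256 * C ^ 8 * (d : ℝ) ^ 5 := by ring
  have h5 : ((d : ℝ) ^ 2) ≤ 16 * p := by exact_mod_cast hdp
  have h6 : (p : ℝ) ^ 3 * (p : ℝ) ^ 5 ≤ (2 ^ 36 * C ^ 16) * (p : ℝ) ^ 5 := by
    calc (p : ℝ) ^ 3 * (p : ℝ) ^ 5 = ((p : ℝ) ^ 4) ^ 2 := by ring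
      _ ≤ (256 * C ^ 8 * (d : ℝ) ^ 5) ^ 2 := pow_le_pow_left₀ (by positivity) h4 2
      _ = 2 ^ 16 * C ^ 16 * ((d : ℝ) ^ 2) ^ 5 := by ring
      _ ≤ 2 ^ 16 * C ^ 16 * (16 * (p : ℝ)) ^ 5 := by gcongr
      _ = (2 ^ 36 * C ^ 16) * (p : ℝ) ^ 5 := by ring
  have h7 : (p : ℝ) ^ 3 ≤ 2 ^ 36 * C ^ 16 := le_of_mul_le_mul_right h6 (by positivity)
  refine le_trans ?_ h7
  nlinarith [sq_nonneg ((p : ℝ)), mul_nonneg (by linarith : (0 : ℝ) ≤ p) (by linarith : (0 : ℝ) ≤ (p : ℝ) - 1)]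

theorem rank_large : ∃ P0 : ℕ, ∀ (p : ℕ) [Fact p.Prime], P0 ≤ p → ∀ d : ℕ, 3 ≤ d → d ^ 2 ≤ 16 * p →
    (II d).card < 2 * (MS p d).card := by
  obtain ⟨C, hC, hω⟩ := two_pow_omega (1 / 8) (by norm_num)
  refine ⟨⌈(2 : ℝ) ^ 36 * C ^ 16⌉₊ + 17, ?_⟩
  intro p _ hp d hd hdp
  by_contra hcon
  push Not at hcon
  have hpp : p.Prime := Fact.out
  have hpd : ¬ p ∣ d := by
    intro h
    have h1 := Nat.le_of_dvd (by omega) h
    nlinarith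
  obtain ⟨G, hG0, hG1, hG2⟩ := rank_multi d hd
  have h1 := Nat.le_of_dvd hG0 (hG2 p hpd (MS p d) (MS_sub p d) (MS_span p d))
  have hn : 1 ≤ (II d).card := by
    have h2 := card_II hd
    have h3 := Nat.totient_pos.2 (by omega : 0 < d)
    omega
  have h2 : p ^ (II d).card ≤ (4 ^ (d.primeFactors.card + 1) * d) ^ (II d).card :=
    (Nat.pow_le_pow_right hpp.pos (by omega)).trans (h1.trans hG1)
  have h3 : p ≤ 4 ^ (d.primeFactors.card + 1) * d :=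
    (Nat.pow_le_pow_iff_left (by omega)).1 h2
  have h4 : p ≤ 4 * (2 ^ d.primeFactors.card) ^ 2 * d := by
    refine h3.trans (le_of_eq ?_)
    rw [pow_succ, ← pow_mul, mul_comm (d.primeFactors.card) 2, pow_mul]
    ring
  have h5 := real_est C hC p d (2 ^ d.primeFactors.card) hpp.one_le (by omega) hdp
    (by push_cast; exact hω d (by omega)) h4
  have h6 := Nat.le_ceil ((2 : ℝ) ^ 36 * C ^ 16)
  have h7 : (p : ℝ) ≤ (⌈(2 : ℝ) ^ 36 * C ^ 16⌉₊ : ℝ) := h5.trans h6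
  have h8 : p ≤ ⌈(2 : ℝ) ^ 36 * C ^ 16⌉₊ := by exact_mod_cast h7
  omega

theorem tot_large : ∃ P0 : ℕ, ∀ p : ℕ, P0 ≤ p → ∃ l : ℕ, l ^ 2 ≤ 16 * p ∧
    p ≤ ∑ m ∈ Icc 2 l, m.totient := by
  refine ⟨1, fun p hp => ⟨Nat.sqrt (16 * p), ?_, ?_⟩⟩
  · rw [pow_two]
    exact Nat.sqrt_le (16 * p)
  · set l := Nat.sqrt (16 * p) with hl
    have h1 : 16 * p < (l + 1) * (l + 1) := Nat.lt_succ_sqrt (16 * p)
    have h4 : 4 ≤ l := by
      rw [hl, Nat.le_sqrt]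
      omega
    have hs1 : ∑ e ∈ range (l + 1), e.totient = 1 + ∑ e ∈ Icc 2 l, e.totient := by
      have e1 : range (l + 1) = range 2 ∪ Icc 2 l := by
        ext x
        rw [mem_union, mem_range, mem_range, mem_Icc]
        omega
      have e2 : Disjoint (range 2) (Icc 2 l) := by
        rw [disjoint_left]
        intro x h5 h6
        rw [mem_range] at h5
        rw [mem_Icc] at h6
        omega
      rw [e1, sum_union e2]
      congr 1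
    have hs2 := totient_sum l
    rw [hs1] at hs2
    nlinarith

end Pool.Agent.TH460.TJ
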